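import Pool.Agent.N556.CQ.Main

/-!
# Circumscribed quadrilaterals: the constant `√2` is not best possible

The plane is `ℝ × ℝ` with the Lebesgue measure `volume`.  A convex quadrilateral (possibly degenerate)
is the convex hull of four points.  For a plane convex set `K` let `q K` be the infimum of the areas of
the convex quadrilaterals which contain `K`.  It is known that `q K ≤ √2` if `K` has area `1`.

**Theorem.**  There is a constant `c < √2` such that every plane convex set of area `1` is contained in
a convex quadrilateral of area at most `c`.  So the supremum of `q K` over all plane convex sets `K` of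
area `1` is smaller than `√2`, and in particular there is no `K` of area `1` with `q K ≥ √2`.

This is the negative answer to both questions Q1 and Q2 of the page.

The proof.  By an affine map we may assume that an inscribed quadrilateral of maximal area has the
vertices `(±1, a)`, `(b, ±1)` and that `K` lies in `[-1, 1]²`.  Suppose that all circumscribed
quadrilaterals have area at least `√2 |K|`.  Then `√2 |K| ≤ 4`.  Let `s₁, …, s₄ ≥ 0` describe the
distances of `K` from the sides of the inscribed quadrilateral, and let `σ` be their sum.  Then
`2 + σ/2 ≤ |K|`, and the quadrilateral circumscribed to `K` with sides parallel to those of the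
inscribed one has area at most `(2 + σ/2)²/2`.  Hence `√2 |K| ≤ |K|²/2`, so `|K| = 2 √2`, and both
circumscribed quadrilaterals have minimal area.  A circumscribed parallelogram of minimal area touches
`K` in the four midpoints of its sides.  So `K` contains the points `(±1, 0)`, `(0, ±1)`, and, by the
same argument for the new inscribed quadrilateral, four points `c + (±ρ, ±ρ)`, `ρ = √2/2`.  The convex
hull of these eight points has area `2 √2`, so `K` is this hull.  At most one of the sides of the square
`[-1, 1]²` meets the small square with the vertices `c + (±ρ, ±ρ)`, so that two adjacent sides of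
`[-1, 1]²` meet `K` only in their midpoints and can be rotated by a small angle; this gives a
circumscribed quadrilateral of area `(4 + 3 k²)/(1 + k²) < 4`, a contradiction.  So the inequality is
strict for every `K`, and the theorem follows by compactness.
-/

set_option autoImplicit false

open MeasureTheory Set

namespace Pool.Agent.Results.MP_b29168_gt.SmallerConstant

/-- The infimum of the areas of the (possibly degenerate) convex quadrilaterals, i.e. of the convex
hulls of four points of the plane, which contain `K`. -/
noncomputable def q (K : Set (ℝ × ℝ)) : ENNReal :=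
  ⨅ (p : Fin 4 → ℝ × ℝ) (_ : K ⊆ convexHull ℝ (range p)), volume (convexHull ℝ (range p))

/-- **Theorem.** There is `c < √2` such that every plane convex set of area one is contained in a convex
quadrilateral of area at most `c`, and the supremum of `q K` over all plane convex sets of area one is
smaller than `√2`. -/
theorem result :
    (∃ c : ℝ, c < Real.sqrt 2 ∧ ∀ K : Set (ℝ × ℝ), Convex ℝ K → volume K = 1 →
      ∃ p₁ p₂ p₃ p₄ : ℝ × ℝ, K ⊆ convexHull ℝ {p₁, p₂, p₃, p₄} ∧
        volume (convexHull ℝ {p₁, p₂, p₃, p₄}) ≤ ENNReal.ofReal c) ∧
    (⨆ (K : Set (ℝ × ℝ)) (_ : Convex ℝ K) (_ : volume K = 1), q K) <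
      ENNReal.ofReal (Real.sqrt 2) := by
  obtain ⟨c, hc, h⟩ := Pool.Agent.N556.CQ.main
  refine ⟨⟨c, hc, fun K hx hv => h K hx hv⟩, ?_⟩
  have hs0 : 0 < Real.sqrt 2 := Real.sqrt_pos.2 (by norm_num)
  refine lt_of_le_of_lt ?_ ((ENNReal.ofReal_lt_ofReal_iff hs0).2 hc)
  refine iSup_le fun K => iSup_le fun hx => iSup_le fun hv => ?_
  obtain ⟨p₁, p₂, p₃, p₄, h1, h2⟩ := h K hx hv
  have hr : range ![p₁, p₂, p₃, p₄] = {p₁, p₂, p₃, p₄} := by
    simp only [Matrix.range_cons, Matrix.range_empty, union_empty, singleton_union]
  refine (iInf₂_le ![p₁, p₂, p₃, p₄] ?_).trans ?_
  · rw [hr]; exact h1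
  · rw [hr]; exact h2

end Pool.Agent.Results.MP_b29168_gt.SmallerConstant
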